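import Pool.Agent.H886Z.UE.Struct

namespace Pool.Agent.Results.MP_82d614_pr.ReplicaSymmetry

open Pool.Agent.H886Z.UE

theorem result (Ω : Type) [Fintype Ω] [DecidableEq Ω] [Nonempty Ω] :
    (∀ k : ℕ, 4 ≤ k → ∀ π : Con k Ω → ℝ, IsDist π → Commutative (supp π) →
      Reducible (supp π) → RS π) ∧
    (∀ π : Con 3 Ω → ℝ, IsDist π → F2Symmetric (supp π) → RS π) :=
  ⟨fun _ hk _ h hC hR => rs_reducible hk h hC hR, fun _ h hS => rs_F2 h hS⟩

end Pool.Agent.Results.MP_82d614_pr.ReplicaSymmetry
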